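import Pool.Agent.Results.MP_f5a5f7_nt.AllThinSetsAtOnce
import Pool.Agent.V11326.WOE

/-!
# The weak abc inequality for ALL values, of whatever height, with conductors in windows, of all functions of small height

Let `K` be a number field of degree `d`, `D ≥ 1`, `q ≥ 3` and `κ > D / q`. There are `ν, η > 0` with the following
property. Let `v_n ≥ 1` be a sequence, for example `v_n = 2 ^ n`. For all real `β` outside a set `F` of Hausdorff dimension
less than one (and of measure zero), all real `c` and all large `n`, ALL rational functions `f` over `K` of degree `D` and of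
height at most `η log v_n`, whose `q` points with `f = 0, 1, ∞` are `K`-rational, and ALL values `x = f(t) ≠ 0, 1` of `f`
in `K`, of whatever height, with `|exp (2 d (cond(x) + cond(1/x) + cond(x - 1)) / q) - β v_n| ≤ v_n ^ θ` satisfy
`h(x) < κ (cond(x) + cond(1/x) + cond(x - 1)) - c`. For `D = 1`, `q = 3` (`f(t) = t`) these are all `x ≠ 0, 1` in `K`, and
`κ > 1/3` is arbitrary; always `D / q ≤ 1 - 2 / q < 1`, so that `κ = 1` is allowed.

The proof combines the starting result `AllThinSetsAtOnce` with a covering argument. The definitions of `zeros`, `height`,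
`cond`, `conductors`, `IsFunction` and `coordinates` are those of that file.
-/

set_option autoImplicit false

namespace Pool.Agent.Results.MP_f5a5f7_nt.ConductorWindows

open NumberField IsDedekindDomain Polynomial MeasureTheory
open Pool.Agent.Results.MP_f5a5f7_nt.AllThinSetsAtOnce

/-- The exponent of convergence of the sequence `v` is at most `τ`: the sum of the `v_n ^ (-p)` converges for all
`p > τ`. -/
def ExpLe (v : ℕ → ℝ) (τ : ℝ) : Prop := ∀ p : ℝ, τ < p → Summable fun n => (v n) ^ (-p)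

theorem result (K : Type) [Field K] [NumberField K] (D q : ℕ) (hD : 1 ≤ D) (hq : 3 ≤ q) (κ : ℝ) (hκ : (D : ℝ) / q < κ) :
    ∃ ν η : ℝ, 0 < ν ∧ ν ≤ 1 ∧ 0 < η ∧
      ∀ (v : ℕ → ℝ) (τ θ : ℝ), (∀ n, 1 ≤ v n) → 0 ≤ τ → ExpLe v τ → θ < 1 →
      ∃ F : Set ℝ, dimH F ≤ ENNReal.ofReal ((1 - ν + τ) / (1 - θ)) ∧ (τ + θ < ν → volume F = 0) ∧
        ∀ β : ℝ, β ∉ F → ∀ c : ℝ, ∃ n₀ : ℕ, ∀ n : ℕ, n₀ ≤ n →
          ∀ P : Fin 3 → K[X], IsFunction D q (η * Real.log (v n)) P → ∀ t : Option K, coordinates D P t 2 ≠ 0 →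
          ∀ x : K, x = coordinates D P t 0 / coordinates D P t 2 → x ≠ 0 → x ≠ 1 →
            |Real.exp (2 * (Module.finrank ℚ K : ℝ) / q * conductors x) - β * v n| ≤ (v n) ^ θ →
            height x < κ * conductors x - c := by
  obtain ⟨-, -, h2, -⟩ := AllThinSetsAtOnce.result K D q hD hq
  obtain ⟨η, ν, hη, hν, hE⟩ := h2 κ hκ
  have hd : (0 : ℝ) < Module.finrank ℚ K := by exact_mod_cast (Module.finrank_pos (R := ℚ) (M := K))
  have hq0 : (0 : ℝ) < q := by exact_mod_cast (by omega : 0 < q)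
  have hC : ∀ c : ℝ, ∃ C : ℝ, ∀ X : ℝ, 1 ≤ X → (Exceptions K D q η κ c X).Finite ∧
        ((Exceptions K D q η κ c X).ncard : ℝ) ≤
          C * X ^ (2 * (Module.finrank ℚ K : ℝ) / (q : ℝ) - ν) := fun c => (hE c).1
  choose C hC using hC
  obtain ⟨e, he⟩ : ∃ e : ℝ, e = 2 * (Module.finrank ℚ K : ℝ) / q := ⟨_, rfl⟩
  have he0 : 0 < e := by rw [he]; positivity
  rw [← he] at hC ⊢
  refine ⟨min (ν / e) 1, η / e, lt_min (by positivity) one_pos, min_le_right _ _, by positivity,
    fun v τ θ hv hτ hvτ hθ => ?_⟩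
  obtain ⟨F, hF, hF0, h⟩ := Pool.Agent.V11326.WOE.scaled (ι := ℤ) (T := K) he0 hν (fun i => C i)
    (fun i X => Exceptions K D q η κ i X) (fun i X hX => hC i X hX) hv hτ hvτ hθ
    (fun i n => {x | ∃ P : Fin 3 → K[X], IsFunction D q (η / e * Real.log (v n)) P ∧ x ≠ 0 ∧ x ≠ 1 ∧
      (∃ t : Option K, coordinates D P t 2 ≠ 0 ∧ x = coordinates D P t 0 / coordinates D P t 2) ∧
      κ * conductors x ≤ height x + i}) (fun _ x => conductors x) (by
      rintro i n X hvX hX x ⟨P, hP, h0, h1, ht, hx⟩ hN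
      have hX0 : 0 < X := by linarith
      refine ⟨⟨P, ⟨hP.ne_zero, hP.sum_eq, hP.coprime, hP.splits, hP.degree_le, hP.degree_eq, hP.points, ?_⟩,
        h0, h1, ht, (Real.le_log_iff_exp_le hX0).1 hN⟩, hx⟩
      refine hP.height_le.trans ?_
      have h3 : Real.log (v n) ≤ e * Real.log X := by
        rw [← Real.log_rpow hX0]
        exact Real.log_le_log (by linarith [hv n]) hvX
      calc η / e * Real.log (v n) ≤ η / e * (e * Real.log X) := mul_le_mul_of_nonneg_left h3 (by positivity)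
        _ = η * Real.log X := by field_simp)
  refine ⟨F, hF, hF0, fun β hβ c => ?_⟩
  obtain ⟨n₀, hn⟩ := h β hβ ⌈c⌉
  refine ⟨n₀, fun n hnn P hP t ht x hx h0 h1 hw => ?_⟩
  by_contra hcon
  push Not at hcon
  exact hn n hnn x hw ⟨P, hP, h0, h1, ⟨t, ht, hx⟩, by linarith [Int.le_ceil c]⟩

end Pool.Agent.Results.MP_f5a5f7_nt.ConductorWindows
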