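import Pool.Agent.Results.MP_f5a5f7_nt.AllThinSetsAtOnce
import Pool.Agent.V11326.WPD
import Pool.Agent.V11326.WCt
import Pool.Agent.V11326.WCp

/-!
# The weak abc inequality for ALL values, of whatever height, with conductors close to powers of a typical base, of all
# rational functions with rational points over `0, 1, ∞`

Let `K` be a number field of degree `d`, `D ≥ 1`, `q ≥ 3` and `κ > D / q`. There is `ν > 0` such that for all `lam` with
`lam n / log n → ∞` (for example `lam n = n`), all countable sets `U` and all `θ < 1` there is a set `F` of real numbers of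
Hausdorff dimension at most `(1 - ν) / (1 - θ)`, of measure zero if `θ < ν`, such that for all `z > 1` outside `F` and
all `β > 0` in `U`: for ALL rational functions `f` over `K` of degree `D` whose `q` points with `f = 0, 1, ∞` are
`K`-rational, all real `c` and all large `n`, ALL values `x = f(t) ≠ 0, 1` of `f` in `K`, of whatever height, with
`|exp (2 d R(x) / q) - β z ^ lam n| ≤ z ^ (θ lam n)`, `R(x) = cond(x) + cond(1/x) + cond(x - 1)`, satisfy
`h(x) < κ R(x) - c`. For `D = 1`, `q = 3` (`f(t) = t`) these are all `x ≠ 0, 1` in `K`, and `κ > 1/3` is arbitrary;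
always `D / q ≤ 1 - 2 / q < 1`, so that `κ = 1` is allowed.

The proof combines the starting result `AllThinSetsAtOnce` with the theorem of helper1 that the powers of almost every base
avoid thin sets. The definitions of `zeros`, `height`, `cond`, `conductors`, `IsFunction` and `coordinates` are those of that
file.
-/

set_option autoImplicit false

namespace Pool.Agent.Results.MP_f5a5f7_nt.ConductorsNearPowers

open NumberField IsDedekindDomain Polynomial MeasureTheory
open Pool.Agent.Results.MP_f5a5f7_nt.AllThinSetsAtOnce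

/-- `lam n / log n` tends to infinity (for example `lam n = n`, `n!`). -/
def Fast (lam : ℕ → ℝ) : Prop := Filter.Tendsto (fun n : ℕ => lam n / Real.log n) Filter.atTop Filter.atTop

theorem result (K : Type) [Field K] [NumberField K] (D q : ℕ) (hD : 1 ≤ D) (hq : 3 ≤ q) (κ : ℝ) (hκ : (D : ℝ) / q < κ) :
    ∃ ν : ℝ, 0 < ν ∧ ν ≤ 1 ∧
      ∀ (lam : ℕ → ℝ) (θ : ℝ), Fast lam → θ < 1 → ∀ U : Set ℝ, U.Countable →
      ∃ F : Set ℝ, dimH F ≤ ENNReal.ofReal ((1 - ν) / (1 - θ)) ∧ (θ < ν → volume F = 0) ∧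
        ∀ z : ℝ, 1 < z → z ∉ F → ∀ β ∈ U, 0 < β → ∀ (P : Fin 3 → K[X]) (H : ℝ), IsFunction D q H P → ∀ c : ℝ,
          ∃ n₀ : ℕ, ∀ n : ℕ, n₀ ≤ n → ∀ t : Option K, coordinates D P t 2 ≠ 0 →
          ∀ x : K, x = coordinates D P t 0 / coordinates D P t 2 → x ≠ 0 → x ≠ 1 →
            |Real.exp (2 * (Module.finrank ℚ K : ℝ) / q * conductors x) - β * z ^ lam n| ≤ z ^ (θ * lam n) →
            height x < κ * conductors x - c := by
  obtain ⟨-, -, h2, -⟩ := AllThinSetsAtOnce.result K D q hD hq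
  obtain ⟨η, ν, hη, hν, hE⟩ := h2 κ hκ
  have hd : (0 : ℝ) < Module.finrank ℚ K := by exact_mod_cast (Module.finrank_pos (R := ℚ) (M := K))
  have hq0 : (0 : ℝ) < q := by exact_mod_cast (by omega : 0 < q)
  have hC : ∀ c : ℝ, ∃ C : ℝ, ∀ X : ℝ, 1 ≤ X → (Exceptions K D q η κ c X).Finite ∧
        ((Exceptions K D q η κ c X).ncard : ℝ) ≤
          C * X ^ (2 * (Module.finrank ℚ K : ℝ) / (q : ℝ) - ν) := fun c => (hE c).1
  choose C hC using hC
  obtain ⟨e, he⟩ : ∃ e : ℝ, e = 2 * (Module.finrank ℚ K : ℝ) / q := ⟨_, rfl⟩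
  have he0 : 0 < e := by rw [he]; positivity
  rw [← he] at hC ⊢
  have h3 := Pool.Agent.V11326.WCt.countable_field K
  have h4 := Pool.Agent.V11326.WCp.poly_countable K
  let ι : Type := {P : Fin 3 → K[X] // ∃ H, IsFunction D q H P} × ℤ
  have hι : Countable ι := inferInstance
  refine ⟨min (ν / e) 1, lt_min (by positivity) one_pos, min_le_right _ _, fun lam θ hlam hθ U hU => ?_⟩
  obtain ⟨F, hF, hF0, h⟩ := Pool.Agent.V11326.WPD.family (ι := ι) (T := K) he0 hν (fun i => C i.2)
    (fun i X => Exceptions K D q η κ i.2 X) (fun i X hX => hC i.2 X hX)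
    (fun i => {x | x ≠ 0 ∧ x ≠ 1 ∧
      (∃ t : Option K, coordinates D i.1.1 t 2 ≠ 0 ∧ x = coordinates D i.1.1 t 0 / coordinates D i.1.1 t 2) ∧
      κ * conductors x ≤ height x + i.2}) (fun _ x => conductors x) (by
      intro i
      obtain ⟨H, hP⟩ := i.1.2
      refine ⟨Real.exp (H / η), fun X hX x hx hN => ?_⟩
      obtain ⟨h0, h1, ht, hx⟩ := hx
      have hX0 : 0 < X := lt_of_lt_of_le (Real.exp_pos _) hX
      have h6 := (Real.le_log_iff_exp_le hX0).2 hX
      rw [div_le_iff₀ hη, mul_comm] at h6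
      exact ⟨⟨i.1.1, ⟨hP.ne_zero, hP.sum_eq, hP.coprime, hP.splits, hP.degree_le, hP.degree_eq, hP.points,
        hP.height_le.trans h6⟩, h0, h1, ht, (Real.le_log_iff_exp_le hX0).1 hN⟩, hx⟩)
    lam θ hlam hθ U hU
  refine ⟨F, hF, hF0, fun z hz hzF β hβ hβ0 P H hP c => ?_⟩
  obtain ⟨n₀, hn⟩ := h z hz hzF β hβ hβ0 (⟨P, H, hP⟩, ⌈c⌉)
  refine ⟨n₀, fun n hnn t ht x hx h0 h1 hw => ?_⟩
  by_contra hcon
  push Not at hcon
  refine hn n hnn x hw ⟨h0, h1, ⟨t, ht, hx⟩, ?_⟩
  show κ * conductors x ≤ height x + ((⌈c⌉ : ℤ) : ℝ)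
  linarith [Int.le_ceil c]

end Pool.Agent.Results.MP_f5a5f7_nt.ConductorsNearPowers
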