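import Pool.Agent.Results.MP_f5a5f7_nt.FewExceptions
import Pool.Agent.H107.MetricZero

/-!
# The weak abc inequality for all numbers near every point outside a set of dimension zero

There is a set `E` of complex numbers of Hausdorff dimension ZERO such that for all `z` outside `E`, all number fields
`K ⊂ ℂ` and all `σ > 0` there is `κ > 1` such that EVERY `x ∈ K`, `x ≠ 0, 1`, with `|x - z| ≤ H(x) ^ (-σ)` satisfies
`h(x) ≤ κ (cond(x) + cond(1/x) + cond(x - 1) + 1)`, which is the inequality of the problem. The same holds for each number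
field `K` and each map of `K` to a metric space, for instance for the embeddings in the completions of `K`.

For fixed `κ > 1` the inequality `h(x) + c < κ (cond(x) + cond(1/x) + cond(x - 1))` holds for all but finitely many
`x ∈ K` with `|x - z| ≤ H(x) ^ (-σ)`, for all `z` outside a set of dimension at most `d min(4 / (7 κ), 20 / 37) / σ`,
`d = [K : ℚ]`. For almost every real `z` this holds for all number fields `K ⊂ ℝ`, all `κ > 1`, all `c` and all
`σ > d min(4 / (7 κ), 20 / 37)`; by Dirichlet's theorem infinitely many `x ∈ K` satisfy `|x - z| ≤ H(x) ^ (-σ)` if `σ < 2 d`.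
-/

set_option autoImplicit false

open NumberField IsDedekindDomain Filter Topology MeasureTheory
open scoped ENNReal NNReal

namespace Pool.Agent.Results.MP_f5a5f7_nt.NearAlmostEveryPoint

open FewExceptions (height)

section
variable {K : Type} [Field K] [NumberField K]

theorem height_nonneg (x : K) : 0 ≤ height x := by
  unfold height
  refine mul_nonneg (by positivity) (add_nonneg ?_ ?_)
  · exact Finset.sum_nonneg fun w _ => mul_nonneg (Nat.cast_nonneg _) (Real.log_nonneg (le_max_left _ _))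
  · exact finsum_nonneg fun v => Real.log_nonneg (le_max_left _ _)

theorem cond_nonneg (x : K) : 0 ≤ FewExceptions.cond x := by
  unfold FewExceptions.cond
  refine mul_nonneg (by positivity) (finsum_nonneg fun v => ?_)
  split_ifs
  · exact Real.log_natCast_nonneg _
  · exact le_rfl

/-- the sum of the three conductors -/
noncomputable def three (x : K) : ℝ := FewExceptions.cond x + FewExceptions.cond x⁻¹ + FewExceptions.cond (x - 1)

theorem three_nonneg (x : K) : 0 ≤ three x :=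
  add_nonneg (add_nonneg (cond_nonneg _) (cond_nonneg _)) (cond_nonneg _)

/-- the numbers which violate the inequality with the constants `κ` and `c` -/
def Bad (K : Type) [Field K] [NumberField K] (κ c : ℝ) : Set K :=
  {x | x ≠ 0 ∧ x ≠ 1 ∧ κ * three x ≤ height x + c}

theorem bad_set (κ c B : ℝ) :
    {x : K | x ∈ Bad K κ c ∧ Real.exp (height x) ≤ B} = FewExceptions.exceptional K κ c B := by
  ext x
  constructor
  · rintro ⟨⟨h1, h2, h3⟩, h4⟩
    exact ⟨h1, h2, h4, h3⟩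
  · rintro ⟨h1, h2, h4, h3⟩
    exact ⟨⟨h1, h2, h3⟩, h4⟩

theorem bad_mono {κ κ' c c' : ℝ} (hκ : κ' ≤ κ) (hc : c ≤ c') : Bad K κ c ⊆ Bad K κ' c' := by
  rintro x ⟨h1, h2, h3⟩
  refine ⟨h1, h2, ?_⟩
  have := mul_le_mul_of_nonneg_right hκ (three_nonneg x)
  linarith

theorem count {κ : ℝ} (hκ : 1 < κ) (c : ℝ) {ε : ℝ} (hε : 0 < ε) : ∃ C : ℝ, ∀ X : ℝ, 1 ≤ X →
    {x : K | x ∈ Bad K κ c ∧ Real.exp (height x) ≤ X}.Finite ∧
      ({x : K | x ∈ Bad K κ c ∧ Real.exp (height x) ≤ X}.ncard : ℝ) ≤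
        C * X ^ ((Module.finrank ℚ K : ℝ) * min (4 / (7 * κ)) (20 / 37) + ε) := by
  obtain ⟨C, hC⟩ := FewExceptions.result K κ c ε hκ hε
  refine ⟨C, fun X hX => ?_⟩
  rw [bad_set]
  exact hC X hX

/-- the inequality of the problem for the numbers near `z` -/
def WeakAbcNear {M : Type} [MetricSpace M] (φ : K → M) (z : M) : Prop :=
  ∀ σ : ℝ, 0 < σ → ∃ κ : ℝ, 1 < κ ∧ ∀ x : K, x ≠ 0 → x ≠ 1 → dist (φ x) z ≤ Real.exp (height x) ^ (-σ) →
    height x ≤ κ * (FewExceptions.cond x + FewExceptions.cond x⁻¹ + FewExceptions.cond (x - 1) + 1)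

/-- part (1) -/
theorem part_one (K : Type) [Field K] [NumberField K] (M : Type) [MetricSpace M] (φ : K → M) :
    ∃ E : Set M, dimH E = 0 ∧ ∀ z ∉ E, WeakAbcNear φ z := by
  have hd : (0 : ℝ) < Module.finrank ℚ K := by exact_mod_cast (Module.finrank_pos (R := ℚ) (M := K))
  obtain ⟨E, hE, h⟩ := Pool.Agent.H107.ME.dim_zero φ (fun x : K => Real.exp (height x))
    (fun x => Real.one_le_exp (height_nonneg x)) (fun R : ℕ => Bad K ((R : ℝ) + 2) 0) (fun ε hε => by
      obtain ⟨R, hR⟩ := exists_nat_ge (2 * (Module.finrank ℚ K : ℝ) / ε)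
      obtain ⟨C, hC⟩ := count (K := K) (κ := (R : ℝ) + 2)
        (by have : (0 : ℝ) ≤ R := Nat.cast_nonneg R; linarith) 0 (half_pos hε)
      refine ⟨R, max C 0, fun X hX => ⟨(hC X hX).1, (hC X hX).2.trans ?_⟩⟩
      have h1 : (Module.finrank ℚ K : ℝ) * min (4 / (7 * ((R : ℝ) + 2))) (20 / 37) + ε / 2 ≤ ε := by
        have h2 : (Module.finrank ℚ K : ℝ) * min (4 / (7 * ((R : ℝ) + 2))) (20 / 37) ≤
            (Module.finrank ℚ K : ℝ) * (4 / (7 * ((R : ℝ) + 2))) :=
          mul_le_mul_of_nonneg_left (min_le_left _ _) hd.le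
        have h3 : (Module.finrank ℚ K : ℝ) * (4 / (7 * ((R : ℝ) + 2))) ≤ ε / 2 := by
          rw [div_le_iff₀ hε] at hR
          have hR0 : (0 : ℝ) ≤ R := Nat.cast_nonneg R
          rw [← mul_div_assoc, div_le_iff₀ (by positivity)]
          nlinarith
        linarith
      calc C * X ^ ((Module.finrank ℚ K : ℝ) * min (4 / (7 * ((R : ℝ) + 2))) (20 / 37) + ε / 2)
          ≤ max C 0 * X ^ ((Module.finrank ℚ K : ℝ) * min (4 / (7 * ((R : ℝ) + 2))) (20 / 37) + ε / 2) :=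
            mul_le_mul_of_nonneg_right (le_max_left _ _) (Real.rpow_nonneg (by linarith) _)
        _ ≤ max C 0 * X ^ ε :=
            mul_le_mul_of_nonneg_left (Real.rpow_le_rpow_of_exponent_le hX h1) (le_max_right _ _))
  refine ⟨E, hE, fun z hz σ hσ => ?_⟩
  obtain ⟨R, hfin⟩ := h z hz σ hσ
  obtain ⟨A, hA⟩ := (hfin.image (fun x : K => height x)).bddAbove
  have hR0 : (0 : ℝ) ≤ R := Nat.cast_nonneg R
  refine ⟨max ((R : ℝ) + 2) A, lt_max_of_lt_left (by linarith), fun x h0 h1 hx => ?_⟩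
  have h3 := three_nonneg x
  have e1 : FewExceptions.cond x + FewExceptions.cond x⁻¹ + FewExceptions.cond (x - 1) + 1 = three x + 1 := rfl
  rw [e1]
  by_cases hb : x ∈ Bad K ((R : ℝ) + 2) 0
  · have h4 : height x ≤ A := hA ⟨x, ⟨hb, hx⟩, rfl⟩
    have h5 : A ≤ max ((R : ℝ) + 2) A := le_max_right _ _
    have h6 : 0 ≤ max ((R : ℝ) + 2) A := le_max_of_le_left (by linarith)
    nlinarith
  · have h4 : height x < ((R : ℝ) + 2) * three x := by
      by_contra hcon
      push Not at hcon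
      exact hb ⟨h0, h1, by linarith⟩
    have h5 : (R : ℝ) + 2 ≤ max ((R : ℝ) + 2) A := le_max_left _ _
    have h6 := mul_le_mul_of_nonneg_right h5 h3
    nlinarith

end

/-- there are countably many number fields in a field of characteristic zero -/
theorem countable_fields (F : Type) [Field F] [CharZero F] :
    {K : IntermediateField ℚ F | FiniteDimensional ℚ K}.Countable := by
  classical
  have hA : {x : F | IsAlgebraic ℚ x}.Countable := Algebraic.countable ℚ F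
  have hF : {s : Set F | s.Finite ∧ s ⊆ {x : F | IsAlgebraic ℚ x}}.Countable := Set.countable_ofPred_finite_subset hA
  refine (hF.image fun s => IntermediateField.adjoin ℚ s).mono ?_
  intro K hK
  have hK' : FiniteDimensional ℚ K := hK
  obtain ⟨s, hs⟩ : ∃ s : Finset F, IntermediateField.adjoin ℚ (s : Set F) = K := by
    obtain ⟨s, hs⟩ := IntermediateField.essFiniteType_iff.1 (inferInstance : Algebra.EssFiniteType ℚ K)
    exact ⟨s, hs⟩
  refine ⟨s, ⟨s.finite_toSet, fun x hx => ?_⟩, hs⟩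
  have hxK : x ∈ K := by
    rw [← hs]
    exact IntermediateField.subset_adjoin _ _ hx
  have h1 : IsAlgebraic ℚ (⟨x, hxK⟩ : K) := Algebra.IsAlgebraic.isAlgebraic _
  exact h1.algebraMap (A := F)

/-- part (2) -/
theorem part_two : ∃ E : Set ℂ, dimH E = 0 ∧ ∀ z ∉ E, ∀ (K : IntermediateField ℚ ℂ) [NumberField K],
    WeakAbcNear (fun x : K => (x : ℂ)) z := by
  classical
  have hc : Countable {K : IntermediateField ℚ ℂ | FiniteDimensional ℚ K} := (countable_fields ℂ).to_subtype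
  have h1 : ∀ K : {K : IntermediateField ℚ ℂ | FiniteDimensional ℚ K}, ∃ E : Set ℂ, dimH E = 0 ∧ ∀ z ∉ E,
      ∀ [NumberField K.1], WeakAbcNear (fun x : K.1 => (x : ℂ)) z := by
    intro K
    have hL' : FiniteDimensional ℚ K.1 := K.2
    have hNF : NumberField K.1 := ⟨⟩
    obtain ⟨E, hE, h⟩ := part_one K.1 ℂ (fun x : K.1 => (x : ℂ))
    exact ⟨E, hE, fun z hz => h z hz⟩
  choose E hE h using h1
  refine ⟨⋃ K, E K, ?_, fun z hz K hK => ?_⟩
  · rw [dimH_iUnion]
    exact le_antisymm (iSup_le fun K => (hE K).le) bot_le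
  · rw [Set.mem_iUnion, not_exists] at hz
    exact h ⟨K, (inferInstance : FiniteDimensional ℚ K)⟩ z (hz _)

theorem nat_bad {K : Type} [Field K] [NumberField K] {κ σ : ℝ} {M : Type} [MetricSpace M] {φ : K → M} {z : M}
    (h : ∀ m : ℕ, {x : K | x ∈ Bad K κ m ∧ dist (φ x) z ≤ Real.exp (height x) ^ (-σ)}.Finite) (c : ℝ) :
    {x : K | x ∈ Bad K κ c ∧ dist (φ x) z ≤ Real.exp (height x) ^ (-σ)}.Finite := by
  obtain ⟨m, hm⟩ := exists_nat_ge c
  exact (h m).subset fun x hx => ⟨bad_mono le_rfl hm hx.1, hx.2⟩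

/-- part (3) -/
theorem part_three (K : Type) [Field K] [NumberField K] (M : Type) [MetricSpace M] (φ : K → M) {κ σ : ℝ}
    (hκ : 1 < κ) (hσ : 0 < σ) :
    ∃ E : Set M, dimH E ≤ ENNReal.ofReal ((Module.finrank ℚ K : ℝ) * min (4 / (7 * κ)) (20 / 37) / σ) ∧
      ∀ z ∉ E, ∀ c : ℝ, {x : K | x ∈ Bad K κ c ∧ dist (φ x) z ≤ Real.exp (height x) ^ (-σ)}.Finite := by
  have hd : (0 : ℝ) < Module.finrank ℚ K := by exact_mod_cast (Module.finrank_pos (R := ℚ) (M := K))
  obtain ⟨E, h1, h2⟩ := Pool.Agent.H107.ME.dim_family φ (fun x : K => Real.exp (height x))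
    (fun x => Real.one_le_exp (height_nonneg x)) (s := (Module.finrank ℚ K : ℝ) * min (4 / (7 * κ)) (20 / 37))
    (mul_nonneg hd.le (le_min (by positivity) (by norm_num))) hσ (fun m : ℕ => Bad K κ (m : ℝ))
    (fun m ε hε => count hκ (m : ℝ) hε)
  exact ⟨E, h1, fun z hz c => nat_bad (fun m => h2 z hz m) c⟩

/-- part (4) for one field -/
theorem one_field (K : Type) [Field K] [NumberField K] (φ : K → ℝ) :
    ∀ᵐ z : ℝ, ∀ κ : ℝ, 1 < κ → ∀ σ : ℝ, (Module.finrank ℚ K : ℝ) * min (4 / (7 * κ)) (20 / 37) < σ → ∀ c : ℝ,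
      {x : K | x ∈ Bad K κ c ∧ dist (φ x) z ≤ Real.exp (height x) ^ (-σ)}.Finite := by
  have hd : (0 : ℝ) < Module.finrank ℚ K := by exact_mod_cast (Module.finrank_pos (R := ℚ) (M := K))
  have h1 : ∀ᵐ z : ℝ, ∀ q : ℚ, 1 < (q : ℝ) → ∀ σ : ℝ,
      (Module.finrank ℚ K : ℝ) * min (4 / (7 * (q : ℝ))) (20 / 37) < σ → ∀ m : ℕ,
      {x : K | x ∈ Bad K q m ∧ |φ x - z| ≤ Real.exp (height x) ^ (-σ)}.Finite := by
    rw [ae_all_iff]
    intro q
    by_cases hq : 1 < (q : ℝ)
    · have h2 := Pool.Agent.H107.ME.ae_family φ (fun x : K => Real.exp (height x))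
        (fun x => Real.one_le_exp (height_nonneg x))
        (s := (Module.finrank ℚ K : ℝ) * min (4 / (7 * (q : ℝ))) (20 / 37))
        (mul_nonneg hd.le (le_min (by positivity) (by norm_num))) (fun m : ℕ => Bad K q (m : ℝ))
        (fun m ε hε => count hq (m : ℝ) hε)
      filter_upwards [h2] with z hz _ σ hσ m
      exact hz σ hσ m
    · exact Eventually.of_forall fun z h => absurd h hq
  filter_upwards [h1] with z hz κ hκ σ hσ c
  -- a rational number slightly smaller than `κ`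
  have hcont : Tendsto (fun t : ℝ => (Module.finrank ℚ K : ℝ) * min (4 / (7 * t)) (20 / 37)) (𝓝 κ)
      (𝓝 ((Module.finrank ℚ K : ℝ) * min (4 / (7 * κ)) (20 / 37))) := by
    have hne : 7 * κ ≠ 0 := by positivity
    have h2 : Tendsto (fun t : ℝ => 4 / (7 * t)) (𝓝 κ) (𝓝 (4 / (7 * κ))) :=
      Tendsto.div tendsto_const_nhds (tendsto_id.const_mul 7) hne
    exact (h2.min tendsto_const_nhds).const_mul _
  have h3 : ∀ᶠ t in 𝓝 κ, (Module.finrank ℚ K : ℝ) * min (4 / (7 * t)) (20 / 37) < σ :=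
    hcont.eventually_lt_const hσ
  obtain ⟨δ, hδ, h4⟩ := Metric.eventually_nhds_iff.1 h3
  obtain ⟨q, hq1, hq2⟩ := exists_rat_btwn (show max 1 (κ - δ) < κ from max_lt hκ (by linarith))
  have hq3 : 1 < (q : ℝ) := lt_of_le_of_lt (le_max_left _ _) hq1
  have hq4 : κ - δ < (q : ℝ) := lt_of_le_of_lt (le_max_right _ _) hq1
  have h5 := h4 (y := (q : ℝ)) (by rw [Real.dist_eq, abs_lt]; constructor <;> linarith)
  obtain ⟨m, hm⟩ := exists_nat_ge c
  refine (hz q hq3 σ h5 m).subset ?_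
  rintro x ⟨g1, g2⟩
  refine ⟨bad_mono hq2.le hm g1, ?_⟩
  rw [← Real.dist_eq]
  exact g2

/-- part (4) -/
theorem part_four : ∀ᵐ z : ℝ, ∀ (K : IntermediateField ℚ ℝ) [NumberField K] (κ : ℝ), 1 < κ → ∀ σ : ℝ,
    (Module.finrank ℚ K : ℝ) * min (4 / (7 * κ)) (20 / 37) < σ → ∀ c : ℝ,
      {x : K | x ∈ Bad K κ c ∧ dist (x : ℝ) z ≤ Real.exp (height x) ^ (-σ)}.Finite := by
  have h5 : ∀ᵐ z : ℝ, ∀ K ∈ {K : IntermediateField ℚ ℝ | FiniteDimensional ℚ K}, ∀ [NumberField K] (κ : ℝ),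
      1 < κ → ∀ σ : ℝ, (Module.finrank ℚ K : ℝ) * min (4 / (7 * κ)) (20 / 37) < σ → ∀ c : ℝ,
      {x : K | x ∈ Bad K κ c ∧ dist (x : ℝ) z ≤ Real.exp (height x) ^ (-σ)}.Finite := by
    rw [ae_ball_iff (countable_fields ℝ)]
    intro K hK
    have hK' : FiniteDimensional ℚ K := hK
    have hNF : NumberField K := ⟨⟩
    filter_upwards [one_field K (fun x : K => (x : ℝ))] with z hz
    intro _
    exact hz
  filter_upwards [h5] with z hz K hK
  exact hz K (inferInstance : FiniteDimensional ℚ K)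

/-- **Theorem.** (1) For every number field `K` and every map `φ` of `K` to a metric space `M` there is a set `E ⊆ M` of
Hausdorff dimension zero such that for all `z` outside `E` and all `σ > 0` there is `κ > 1` such that EVERY `x ∈ K`,
`x ≠ 0, 1`, with `dist (φ x) z ≤ H(x) ^ (-σ)` satisfies `h(x) ≤ κ (cond(x) + cond(1/x) + cond(x - 1) + 1)`.
(2) There is one set `E ⊆ ℂ` of Hausdorff dimension zero with this property for all number fields `K ⊂ ℂ`.
(3) For `κ > 1` and `σ > 0`, all `z ∈ M` outside a set of dimension at most `[K : ℚ] min(4 / (7 κ), 20 / 37) / σ` and all `c`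
all but finitely many `x ∈ K`, `x ≠ 0, 1`, with `dist (φ x) z ≤ H(x) ^ (-σ)` satisfy
`h(x) + c < κ (cond(x) + cond(1/x) + cond(x - 1))`.
(4) For almost every real `z`, all number fields `K ⊂ ℝ`, all `κ > 1`, all `σ > [K : ℚ] min(4 / (7 κ), 20 / 37)` and all `c`
all but finitely many `x ∈ K`, `x ≠ 0, 1`, with `|x - z| ≤ H(x) ^ (-σ)` satisfy this inequality. -/
theorem result :
    (∀ (K : Type) [Field K] [NumberField K] (M : Type) [MetricSpace M] (φ : K → M),
      ∃ E : Set M, dimH E = 0 ∧ ∀ z : M, z ∉ E → ∀ σ : ℝ, 0 < σ → ∃ κ : ℝ, 1 < κ ∧ ∀ x : K, x ≠ 0 → x ≠ 1 →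
        dist (φ x) z ≤ Real.exp (height x) ^ (-σ) →
          height x ≤ κ * (FewExceptions.cond x + FewExceptions.cond x⁻¹ + FewExceptions.cond (x - 1) + 1)) ∧
    (∃ E : Set ℂ, dimH E = 0 ∧ ∀ z : ℂ, z ∉ E → ∀ (K : IntermediateField ℚ ℂ) [NumberField K] (σ : ℝ), 0 < σ →
      ∃ κ : ℝ, 1 < κ ∧ ∀ x : K, x ≠ 0 → x ≠ 1 → ‖(x : ℂ) - z‖ ≤ Real.exp (height x) ^ (-σ) →
        height x ≤ κ * (FewExceptions.cond x + FewExceptions.cond x⁻¹ + FewExceptions.cond (x - 1) + 1)) ∧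
    (∀ (K : Type) [Field K] [NumberField K] (M : Type) [MetricSpace M] (φ : K → M) (κ σ : ℝ), 1 < κ → 0 < σ →
      ∃ E : Set M, dimH E ≤ ENNReal.ofReal ((Module.finrank ℚ K : ℝ) * min (4 / (7 * κ)) (20 / 37) / σ) ∧
        ∀ z : M, z ∉ E → ∀ c : ℝ, {x : K | (x ≠ 0 ∧ x ≠ 1 ∧ κ * (FewExceptions.cond x + FewExceptions.cond x⁻¹ + FewExceptions.cond (x - 1)) ≤ height x + c) ∧
          dist (φ x) z ≤ Real.exp (height x) ^ (-σ)}.Finite) ∧
    (∀ᵐ z : ℝ, ∀ (K : IntermediateField ℚ ℝ) [NumberField K] (κ : ℝ), 1 < κ → ∀ σ : ℝ,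
      (Module.finrank ℚ K : ℝ) * min (4 / (7 * κ)) (20 / 37) < σ → ∀ c : ℝ,
        {x : K | (x ≠ 0 ∧ x ≠ 1 ∧ κ * (FewExceptions.cond x + FewExceptions.cond x⁻¹ + FewExceptions.cond (x - 1)) ≤ height x + c) ∧
          |(x : ℝ) - z| ≤ Real.exp (height x) ^ (-σ)}.Finite) := by
  refine ⟨fun K _ _ M _ φ => part_one K M φ, ?_, fun K _ _ M _ φ κ σ hκ hσ => part_three K M φ hκ hσ, part_four⟩
  obtain ⟨E, hE, h⟩ := part_two
  refine ⟨E, hE, fun z hz K hK σ hσ => ?_⟩
  obtain ⟨κ, hκ, h1⟩ := h z hz K σ hσ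
  refine ⟨κ, hκ, fun x h0 h2 hx => h1 x h0 h2 ?_⟩
  rw [dist_eq_norm]
  exact hx

end Pool.Agent.Results.MP_f5a5f7_nt.NearAlmostEveryPoint
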