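import Mathlib
import Pool.Agent.Results.MP_2ec8a3_nt.FewPowersAllHeights

/-!
# The weak abc inequality for rational numbers with few exponents: few exceptions, all heights

For every `n` and `ε > 0` there are `κ` and `C` such that for every `X ≥ 1` only finitely many, at
most `C * X ^ ε`, rational numbers `x ≠ 0, 1`, of any height, violate the weak abc inequality
`h (x) ≤ κ (cond (x) + cond (1/x) + cond (x - 1) + 1)`, have
`cond (x) + cond (1/x) + cond (x - 1) ≤ log X` and at most `n` different exponents in the prime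
factorisations of the numerators of `x`, `1/x` and `x - 1`. The number of primes is not bounded; the
starting file `RationalsRare` is the case of at most `n` primes.

The proof: the three numerators are products of powers of at most `n` integers `≤ 2 R`, where
`R = exp (cond (x) + cond (1/x) + cond (x - 1))`; so there are few such `x` with `R` in a dyadic range
and `h (x)` large, by `MP_2ec8a3_nt.FewPowersAllHeights`; dyadic decomposition. The lemmas on products
of few powers and the summation are taken from `MP_d8bd92_nt.FewExponentsAllHeights` (helper288), the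
passage from `x` to the triples from `RationalsRare`.
-/

set_option autoImplicit false

namespace Pool.Agent.Results.MP_f5a5f7_nt.RationalsFewExponents

/-- the absolute logarithmic height of a rational number -/
noncomputable def height (x : ℚ) : ℝ := Real.log ((max x.num.natAbs x.den : ℕ) : ℝ)

/-- the primes `p` with `|x|_p < 1` -/
def zeros (x : ℚ) : Finset ℕ := x.num.natAbs.primeFactors

/-- the conductor of a rational number: the sum of `log p` over the primes `p` with `|x|_p < 1` -/
noncomputable def cond (x : ℚ) : ℝ := ∑ p ∈ zeros x, Real.log p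

/-- the exponents which occur in the prime factorisation of the numerator of `x`, that is the
positive numbers among the `p`-adic valuations of `x` -/
def exps (x : ℚ) : Finset ℕ := (zeros x).image fun p => x.num.natAbs.factorization p

/-- the exponents which occur in the prime factorisations of the numerators of `x`, `1/x`, `x - 1` -/
def exponents (x : ℚ) : Finset ℕ := exps x ∪ exps x⁻¹ ∪ exps (x - 1)

/-- the rational numbers `x ≠ 0, 1` such that at most `n` different exponents occur in the numerators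
of `x`, `1/x`, `x - 1`, the sum of the three conductors is at most `log X` and
`h (x) > κ (cond (x) + cond (1/x) + cond (x - 1) + 1)` -/
def violations (n : ℕ) (κ X : ℝ) : Set ℚ :=
  {x | x ≠ 0 ∧ x ≠ 1 ∧ (exponents x).card ≤ n ∧
    cond x + cond x⁻¹ + cond (x - 1) ≤ Real.log X ∧
    κ * (cond x + cond x⁻¹ + cond (x - 1) + 1) < height x}

/-! ### Products of few powers -/

open Pool.Agent.Results.MP_2ec8a3_nt.FewPowersAllHeights (PowerProduct Triples)

lemma pp_cons {N X m x e : ℕ} (h : PowerProduct N X m) (hx : 1 ≤ x) (hxX : x ≤ X) :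
    PowerProduct (N + 1) X (x ^ e * m) := by
  obtain ⟨y, f, hy, rfl⟩ := h
  refine ⟨Fin.cons x y, Fin.cons e f, ?_, ?_⟩
  · intro j
    refine Fin.cases ?_ (fun i => ?_) j
    · simpa using ⟨hx, hxX⟩
    · simpa using hy i
  · rw [Fin.prod_univ_succ]
    simp

lemma pp_mono {N N' X m : ℕ} (hX : 1 ≤ X) (h : PowerProduct N X m) (hN : N ≤ N') :
    PowerProduct N' X m := by
  induction N', hN using Nat.le_induction with
  | base => exact h
  | succ k _ ih =>
    have := pp_cons (x := 1) (e := 0) ih le_rfl hX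
    simpa using this

lemma pp_prod {X : ℕ} (g : ℕ → ℕ) (hg : ∀ e, 1 ≤ g e ∧ g e ≤ X) (E : Finset ℕ) :
    PowerProduct E.card X (∏ e ∈ E, g e ^ e) := by
  classical
  induction E using Finset.induction_on with
  | empty => exact ⟨Fin.elim0, Fin.elim0, fun j => j.elim0, by simp⟩
  | insert e E he ih =>
    rw [Finset.prod_insert he, Finset.card_insert_of_notMem he]
    exact pp_cons ih (hg e).1 (hg e).2

/-- a number with few exponents is a product of few powers -/
lemma powerProduct_of {m N X : ℕ} (hm : m ≠ 0) (E : Finset ℕ) (hE : E.card ≤ N)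
    (h : ∀ p ∈ m.primeFactors, m.factorization p ∈ E) (hX1 : 1 ≤ X)
    (hX : ∏ p ∈ m.primeFactors, p ≤ X) : PowerProduct N X m := by
  classical
  have h1 : m = ∏ e ∈ E, (∏ p ∈ m.primeFactors.filter (fun p => m.factorization p = e), p) ^ e := by
    conv_lhs => rw [← Nat.prod_factorization_pow_eq_self hm]
    rw [Finsupp.prod, Nat.support_factorization,
      ← Finset.prod_fiberwise_of_maps_to (g := fun p => m.factorization p) (t := E) h]
    refine Finset.prod_congr rfl fun e _ => ?_
    rw [← Finset.prod_pow]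
    refine Finset.prod_congr rfl fun p hp => ?_
    rw [(Finset.mem_filter.1 hp).2]
  rw [h1]
  refine pp_mono hX1 (pp_prod _ (fun e => ⟨?_, ?_⟩) E) hE
  · exact Finset.prod_pos fun p hp => (Nat.prime_of_mem_primeFactors (Finset.mem_filter.1 hp).1).pos
  · refine le_trans ?_ hX
    exact Finset.prod_le_prod_of_subset_of_one_le' (Finset.filter_subset _ _)
      fun p hp _ => (Nat.prime_of_mem_primeFactors hp).one_le

/-! ### From `x` to the triples -/

/-- the product of the primes which occur in one of the three conductors -/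
def radical (x : ℚ) : ℕ := ∏ p ∈ zeros x ∪ zeros x⁻¹ ∪ zeros (x - 1), p

lemma num_inv {x : ℚ} (hx : x ≠ 0) : x⁻¹.num.natAbs = x.den := by
  have h1 : x.num ≠ 0 := Rat.num_ne_zero.mpr hx
  rw [Rat.num_inv, Int.natAbs_mul, Int.natAbs_sign_of_ne_zero h1, one_mul, Int.natAbs_natCast]

lemma num_sub (x : ℚ) : (x - 1).num = x.num - x.den := by
  have h1 : (x - 1).den = x.den := by
    have h0 := Rat.sub_natCast_den x 1
    rwa [Nat.cast_one] at h0
  have h2 := Rat.mul_den_eq_num (x - 1)
  rw [h1] at h2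
  have h3 := Rat.mul_den_eq_num x
  have h4 : (((x - 1).num : ℤ) : ℚ) = ((x.num - x.den : ℤ) : ℚ) := by
    push_cast
    rw [← h2, ← h3]
    ring
  exact_mod_cast h4

lemma prime_of_mem {x : ℚ} {p : ℕ} (hp : p ∈ zeros x ∪ zeros x⁻¹ ∪ zeros (x - 1)) : p.Prime := by
  rw [Finset.mem_union, Finset.mem_union] at hp
  rcases hp with (h | h) | h <;> exact Nat.prime_of_mem_primeFactors h

lemma radical_pos (x : ℚ) : 1 ≤ radical x :=
  Finset.prod_pos fun _ hp => (prime_of_mem hp).pos

/-- the logarithm of the radical is the sum of the three conductors -/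
lemma log_radical {x : ℚ} (hx : x ≠ 0) (hc1 : Nat.Coprime x.num.natAbs x.den)
    (hc2 : Nat.Coprime x.num.natAbs (x - 1).num.natAbs)
    (hc3 : Nat.Coprime x.den (x - 1).num.natAbs) :
    Real.log (radical x : ℝ) = cond x + cond x⁻¹ + cond (x - 1) := by
  unfold radical cond
  rw [Nat.cast_prod, Real.log_prod (fun p hp => by
    have := (prime_of_mem hp).pos
    positivity)]
  have hd1 : Disjoint (zeros x) (zeros x⁻¹) := by
    unfold zeros
    rw [num_inv hx]
    exact hc1.disjoint_primeFactors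
  have hd2 : Disjoint (zeros x ∪ zeros x⁻¹) (zeros (x - 1)) := by
    rw [Finset.disjoint_union_left]
    unfold zeros
    rw [num_inv hx]
    exact ⟨hc2.disjoint_primeFactors, hc3.disjoint_primeFactors⟩
  rw [Finset.sum_union hd2, Finset.sum_union hd1]

/-- the numerators of `x`, `1 / x`, `x - 1` are products of few powers of numbers which are not much
larger than the radical -/
lemma member {x : ℚ} (hx : x ≠ 0) {n Y m : ℕ} (hn : (exponents x).card ≤ n) (hY : radical x ≤ Y)
    (hm : m ≠ 0) (h : m = x.num.natAbs ∨ m = x.den ∨ m = (x - 1).num.natAbs) :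
    PowerProduct n Y m := by
  have hsub : m.primeFactors ⊆ zeros x ∪ zeros x⁻¹ ∪ zeros (x - 1) := by
    intro p hp
    rw [Finset.mem_union, Finset.mem_union]
    unfold zeros
    rw [num_inv hx]
    rcases h with h | h | h
    · left; left; rwa [← h]
    · left; right; rwa [← h]
    · right; rwa [← h]
  refine powerProduct_of hm (exponents x) hn ?_ ((radical_pos x).trans hY) ?_
  · intro p hp
    unfold exponents exps zeros
    rw [num_inv hx, Finset.mem_union, Finset.mem_union, Finset.mem_image, Finset.mem_image,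
      Finset.mem_image]
    rcases h with h | h | h
    · left; left; exact ⟨p, by rwa [← h], by rw [h]⟩
    · left; right; exact ⟨p, by rwa [← h], by rw [h]⟩
    · right; exact ⟨p, by rwa [← h], by rw [h]⟩
  · refine le_trans ?_ hY
    exact Finset.prod_le_prod_of_subset_of_one_le' hsub fun p hp _ => (prime_of_mem hp).one_le

/-- the triple of a violation -/
lemma to_triples {n K : ℕ} {κ X : ℝ} (hκ : 2 * (K : ℝ) + 1 ≤ κ) {x : ℚ}
    (hx : x ∈ violations n κ X) {a b : ℕ} (ha : 0 < a) (hb : 0 < b) (hab : Nat.Coprime a b)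
    (h1 : a = x.num.natAbs ∨ a = x.den ∨ a = (x - 1).num.natAbs)
    (h2 : b = x.num.natAbs ∨ b = x.den ∨ b = (x - 1).num.natAbs)
    (h3 : a + b = x.num.natAbs ∨ a + b = x.den ∨ a + b = (x - 1).num.natAbs)
    (h4 : max x.num.natAbs x.den ≤ a + b)
    (hc1 : Nat.Coprime x.num.natAbs x.den) (hc2 : Nat.Coprime x.num.natAbs (x - 1).num.natAbs)
    (hc3 : Nat.Coprime x.den (x - 1).num.natAbs) :
    (a, b) ∈ Triples n (2 ^ (Nat.log 2 (radical x) + 1)) K := by
  obtain ⟨hx0, hx1, hcard, hcond, hviol⟩ := hx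
  rw [← log_radical hx0 hc1 hc2 hc3] at hcond hviol
  obtain ⟨i, hi⟩ : ∃ i, i = Nat.log 2 (radical x) := ⟨_, rfl⟩
  rw [← hi]
  have hRpos := radical_pos x
  have hlt : radical x < 2 ^ (i + 1) := by
    rw [hi]
    exact Nat.lt_pow_succ_log_self (by norm_num) _
  have hle : 2 ^ i ≤ radical x := by
    rw [hi]
    exact Nat.pow_log_le_self 2 (by omega)
  refine ⟨ha, hb, hab, member hx0 hcard hlt.le ha.ne' h1, member hx0 hcard hlt.le hb.ne' h2,
    member hx0 hcard hlt.le (by omega) h3, ?_⟩
  show (2 ^ (i + 1)) ^ K ≤ a + b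
  -- the radical is at least `2`
  have hR2 : 2 ≤ radical x := by
    obtain ⟨q, hq, hqd⟩ := Nat.exists_prime_and_dvd (show a + b ≠ 1 by omega)
    have hqm : q ∈ zeros x ∪ zeros x⁻¹ ∪ zeros (x - 1) := by
      rw [Finset.mem_union, Finset.mem_union]
      unfold zeros
      rw [num_inv hx0]
      have : q ∈ (a + b).primeFactors := Nat.mem_primeFactors.2 ⟨hq, hqd, by omega⟩
      rcases h3 with h | h | h
      · left; left; rwa [← h]
      · left; right; rwa [← h]
      · right; rwa [← h]
    exact hq.two_le.trans (Nat.le_of_dvd (by omega) (Finset.dvd_prod_of_mem _ hqm))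
  have e1 : 2 ^ (i + 1) ≤ radical x ^ 2 := by
    rw [pow_succ]
    nlinarith
  have e2 : (2 ^ (i + 1)) ^ K ≤ radical x ^ (2 * K) := by
    rw [pow_mul]
    exact Nat.pow_le_pow_left e1 K
  refine e2.trans ?_
  have hR : (2 : ℝ) ≤ radical x := by exact_mod_cast hR2
  have hlR : 0 ≤ Real.log (radical x : ℝ) := Real.log_nonneg (by linarith)
  have hcp : (0 : ℝ) < ((a + b : ℕ) : ℝ) := by exact_mod_cast (by omega : 0 < a + b)
  have hh : height x ≤ Real.log ((a + b : ℕ) : ℝ) := by
    unfold height
    apply Real.log_le_log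
    · exact_mod_cast lt_max_of_lt_right x.den_pos
    · exact_mod_cast h4
  have hK0 : (0 : ℝ) ≤ K := Nat.cast_nonneg K
  have e3 : ((2 * K : ℕ) : ℝ) * Real.log (radical x : ℝ) ≤ Real.log ((a + b : ℕ) : ℝ) := by
    have e0 : ((2 * K : ℕ) : ℝ) = 2 * (K : ℝ) := by push_cast; ring
    rw [e0]
    have e4 : 2 * (K : ℝ) * Real.log (radical x : ℝ) ≤ κ * (Real.log (radical x : ℝ) + 1) := by
      nlinarith
    linarith
  have e5 : Real.log (((radical x ^ (2 * K) : ℕ)) : ℝ) ≤ Real.log ((a + b : ℕ) : ℝ) := by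
    rw [Nat.cast_pow, Real.log_pow]
    exact e3
  have e6 := (Real.log_le_log_iff (by positivity) hcp).1 e5
  exact_mod_cast e6

/-- **Main theorem.** -/
theorem result (n : ℕ) (ε : ℝ) (hε : 0 < ε) : ∃ κ C : ℝ, 1 < κ ∧ 0 < C ∧
    ∀ X : ℝ, 1 ≤ X → (violations n κ X).Finite ∧
      ((violations n κ X).ncard : ℝ) ≤ C * X ^ ε := by
  classical
  obtain ⟨K, hK⟩ := Pool.Agent.Results.MP_2ec8a3_nt.FewPowersAllHeights.result n (ε / 2)
    (by positivity)
  obtain ⟨κ, hκ⟩ : ∃ κ : ℝ, κ = 2 * (K : ℝ) + 2 := ⟨_, rfl⟩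
  have hK0 : (0 : ℝ) ≤ K := Nat.cast_nonneg K
  have hκ1 : 2 * (K : ℝ) + 1 ≤ κ := by linarith
  let g1 : ℕ × ℕ → ℚ := fun q => -((q.1 : ℚ) / q.2)
  let g2 : ℕ × ℕ → ℚ := fun q => (q.1 : ℚ) / ((q.1 + q.2 : ℕ) : ℚ)
  let g3 : ℕ × ℕ → ℚ := fun q => ((q.1 + q.2 : ℕ) : ℚ) / q.1
  let T : ℕ → Set (ℕ × ℕ) := fun i => Triples n (2 ^ (i + 1)) K
  obtain ⟨D, hD⟩ : ∃ D : ℕ → Set ℚ, D = fun i => g1 '' T i ∪ g2 '' T i ∪ g3 '' T i := ⟨_, rfl⟩
  have hDi : ∀ i, (D i).Finite ∧
      ((D i).ncard : ℝ) ≤ 3 * ((2 ^ (i + 1) : ℕ) : ℝ) ^ (ε / 2) := by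
    intro i
    obtain ⟨h1, h2⟩ := hK (2 ^ (i + 1))
    have hTf : (T i).Finite := h1
    have hU : (g1 '' T i ∪ g2 '' T i ∪ g3 '' T i).Finite :=
      ((hTf.image _).union (hTf.image _)).union (hTf.image _)
    have h3 : (g1 '' T i ∪ g2 '' T i ∪ g3 '' T i).ncard ≤ (T i).ncard + (T i).ncard + (T i).ncard :=
      (Set.ncard_union_le _ _).trans (Nat.add_le_add ((Set.ncard_union_le _ _).trans
        (Nat.add_le_add (Set.ncard_image_le hTf) (Set.ncard_image_le hTf)))
        (Set.ncard_image_le hTf))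
    have h4 : ((T i).ncard : ℝ) ≤ ((2 ^ (i + 1) : ℕ) : ℝ) ^ (ε / 2) := h2
    have h5 : ((g1 '' T i ∪ g2 '' T i ∪ g3 '' T i).ncard : ℝ) ≤
        (T i).ncard + (T i).ncard + (T i).ncard := by exact_mod_cast h3
    rw [hD]
    exact ⟨hU, by linarith⟩
  have hl2 : 0 < Real.log 2 := Real.log_pos (by norm_num)
  refine ⟨κ, (1 / ((ε / 2) * Real.log 2) + 1) * (3 * 2 ^ (ε / 2)), by linarith, by positivity,
    fun X hX => ?_⟩
  have hX0 : 0 < X := by linarith
  obtain ⟨L, hL⟩ : ∃ L : ℕ, L = Nat.log 2 ⌊X⌋₊ := ⟨_, rfl⟩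
  have hfl : 1 ≤ ⌊X⌋₊ := Nat.le_floor (by exact_mod_cast hX)
  have h2L : ∀ i ≤ L, ((2 ^ i : ℕ) : ℝ) ≤ X := by
    intro i hi
    have h1 : 2 ^ i ≤ ⌊X⌋₊ := by
      calc 2 ^ i ≤ 2 ^ L := Nat.pow_le_pow_right (by norm_num) hi
        _ ≤ ⌊X⌋₊ := by rw [hL]; exact Nat.pow_log_le_self 2 (by omega)
    exact le_trans (by exact_mod_cast h1) (Nat.floor_le hX0.le)
  have hcov : violations n κ X ⊆ ⋃ i ∈ Finset.range (L + 1), D i := by
    intro x hx
    have hx' := hx
    obtain ⟨hx0, hx1, hcard, hcond, hviol⟩ := hx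
    have hnum := num_sub x
    have hd : 0 < x.den := x.den_pos
    have hdi : (0 : ℤ) < x.den := by exact_mod_cast hd
    have hxe : x = (x.num : ℚ) / x.den := (Rat.num_div_den x).symm
    have hn0 : x.num ≠ 0 := Rat.num_ne_zero.mpr hx0
    have hne : x.num ≠ x.den := by
      intro he
      apply hx1
      rw [hxe, he]
      field_simp
      norm_cast
    have hc1 : Nat.Coprime x.num.natAbs x.den := x.reduced
    have hc1i : IsCoprime x.num (x.den : ℤ) := by
      rw [Int.isCoprime_iff_gcd_eq_one]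
      exact hc1
    have hc2i : IsCoprime x.num (x - 1).num := by
      rw [hnum]
      have h5 : IsCoprime x.num (-(x.den : ℤ) + x.num * 1) := hc1i.neg_right.add_mul_left_right 1
      have h6 : -(x.den : ℤ) + x.num * 1 = x.num - x.den := by ring
      rwa [h6] at h5
    have hc3i : IsCoprime (x.den : ℤ) (x - 1).num := by
      rw [hnum]
      have h5 : IsCoprime (x.den : ℤ) (x.num + x.den * (-1)) := hc1i.symm.add_mul_left_right (-1)
      have h6 : x.num + (x.den : ℤ) * (-1) = x.num - x.den := by ring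
      rwa [h6] at h5
    have hc2 : Nat.Coprime x.num.natAbs (x - 1).num.natAbs := by
      rw [Int.isCoprime_iff_gcd_eq_one] at hc2i
      exact hc2i
    have hc3 : Nat.Coprime x.den (x - 1).num.natAbs := by
      rw [Int.isCoprime_iff_gcd_eq_one] at hc3i
      exact hc3i
    have hm : 0 < (x - 1).num.natAbs := by
      rw [Int.natAbs_pos, hnum]
      omega
    have hRX : (radical x : ℝ) ≤ X := by
      have h1 := hcond
      rw [← log_radical hx0 hc1 hc2 hc3] at h1
      have h2 : (0 : ℝ) < radical x := by exact_mod_cast radical_pos x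
      exact (Real.log_le_log_iff h2 hX0).1 h1
    rw [Set.mem_iUnion₂]
    refine ⟨Nat.log 2 (radical x), ?_, ?_⟩
    · rw [Finset.mem_range, hL]
      exact Nat.lt_succ_of_le (Nat.log_mono_right (Nat.le_floor hRX))
    rw [hD]
    rcases lt_or_gt_of_ne hn0 with hneg | hpos
    · -- negative numbers
      left; left
      refine ⟨(x.num.natAbs, x.den), to_triples hκ1 hx' (by omega) hd hc1 (Or.inl rfl)
        (Or.inr (Or.inl rfl)) (Or.inr (Or.inr (by rw [hnum]; omega))) (by omega) hc1 hc2 hc3, ?_⟩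
      show -((x.num.natAbs : ℚ) / x.den) = x
      have h7 : (x.num.natAbs : ℚ) = -(x.num : ℚ) := by
        have : ((x.num.natAbs : ℤ)) = -x.num := by omega
        rw [← Int.cast_natCast (R := ℚ), this, Int.cast_neg]
      rw [h7]
      conv_rhs => rw [hxe]
      ring
    · rcases lt_or_gt_of_ne hne with hlt | hgt
      · left; right
        have h8 : x.num.natAbs + (x - 1).num.natAbs = x.den := by
          rw [hnum]
          omega
        refine ⟨(x.num.natAbs, (x - 1).num.natAbs), to_triples hκ1 hx' (by omega) hm hc2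
          (Or.inl rfl) (Or.inr (Or.inr rfl)) (Or.inr (Or.inl h8)) (by omega) hc1 hc2 hc3, ?_⟩
        show (x.num.natAbs : ℚ) / ((x.num.natAbs + (x - 1).num.natAbs : ℕ) : ℚ) = x
        rw [h8]
        have h7 : (x.num.natAbs : ℚ) = (x.num : ℚ) := by
          have : ((x.num.natAbs : ℤ)) = x.num := by omega
          rw [← Int.cast_natCast (R := ℚ), this]
        rw [h7]
        exact hxe.symm
      · right
        have h8 : x.den + (x - 1).num.natAbs = x.num.natAbs := by
          rw [hnum]
          omega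
        refine ⟨(x.den, (x - 1).num.natAbs), to_triples hκ1 hx' hd hm hc3
          (Or.inr (Or.inl rfl)) (Or.inr (Or.inr rfl)) (Or.inl h8) (by omega) hc1 hc2 hc3, ?_⟩
        show ((x.den + (x - 1).num.natAbs : ℕ) : ℚ) / x.den = x
        rw [h8]
        have h7 : (x.num.natAbs : ℚ) = (x.num : ℚ) := by
          have : ((x.num.natAbs : ℤ)) = x.num := by omega
          rw [← Int.cast_natCast (R := ℚ), this]
        rw [h7]
        exact hxe.symm
  have hfin : (⋃ i ∈ Finset.range (L + 1), D i).Finite :=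
    Set.Finite.biUnion (Finset.finite_toSet _) fun i _ => (hDi i).1
  refine ⟨hfin.subset hcov, ?_⟩
  have hc1 : ((⋃ i ∈ Finset.range (L + 1), D i).ncard : ℝ) ≤
      ∑ i ∈ Finset.range (L + 1), ((D i).ncard : ℝ) := by
    have : (⋃ i ∈ Finset.range (L + 1), D i).ncard ≤ ∑ i ∈ Finset.range (L + 1), (D i).ncard := by
      generalize Finset.range (L + 1) = S
      induction S using Finset.induction_on with
      | empty => simp
      | insert a S ha ih =>
        rw [Finset.set_biUnion_insert, Finset.sum_insert ha]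
        exact (Set.ncard_union_le _ _).trans (Nat.add_le_add_left ih _)
    exact_mod_cast this
  have hc2 : ∀ i ∈ Finset.range (L + 1),
      ((D i).ncard : ℝ) ≤ 3 * 2 ^ (ε / 2) * X ^ (ε / 2) := by
    intro i hi
    refine (hDi i).2.trans ?_
    rw [mul_assoc]
    refine mul_le_mul_of_nonneg_left ?_ (by norm_num)
    push_cast
    rw [pow_succ, mul_comm, Real.mul_rpow (by norm_num) (by positivity)]
    refine mul_le_mul_of_nonneg_left ?_ (by positivity)
    refine Real.rpow_le_rpow (by positivity) ?_ (by positivity)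
    have := h2L i (by rw [Finset.mem_range] at hi; omega)
    push_cast at this
    exact this
  have hc3 : ((L + 1 : ℕ) : ℝ) ≤ (1 / ((ε / 2) * Real.log 2) + 1) * X ^ (ε / 2) := by
    have e1 : (2 : ℝ) ^ L ≤ X := by
      have := h2L L le_rfl
      push_cast at this
      exact this
    have e2 := Real.log_le_log (by positivity) e1
    rw [Real.log_pow] at e2
    have e3 : Real.log X ≤ X ^ (ε / 2) / (ε / 2) := Real.log_le_rpow_div hX0.le (by positivity)
    have e4 : (L : ℝ) ≤ 1 / ((ε / 2) * Real.log 2) * X ^ (ε / 2) := by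
      have e5 : (L : ℝ) * Real.log 2 ≤ X ^ (ε / 2) / (ε / 2) := e2.trans e3
      rw [div_mul_eq_mul_div, one_mul, le_div_iff₀ (by positivity)]
      rw [le_div_iff₀ (by positivity)] at e5
      linarith
    have e6 : 1 ≤ X ^ (ε / 2) := Real.one_le_rpow hX (by positivity)
    push_cast
    rw [add_mul, one_mul]
    linarith
  calc ((violations n κ X).ncard : ℝ) ≤ ((⋃ i ∈ Finset.range (L + 1), D i).ncard : ℝ) := by
        exact_mod_cast Set.ncard_le_ncard hcov hfin
    _ ≤ ∑ i ∈ Finset.range (L + 1), ((D i).ncard : ℝ) := hc1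
    _ ≤ ∑ i ∈ Finset.range (L + 1), (3 * 2 ^ (ε / 2) * X ^ (ε / 2)) := Finset.sum_le_sum hc2
    _ = ((L + 1 : ℕ) : ℝ) * (3 * 2 ^ (ε / 2) * X ^ (ε / 2)) := by
        rw [Finset.sum_const, Finset.card_range, nsmul_eq_mul]
    _ ≤ ((1 / ((ε / 2) * Real.log 2) + 1) * X ^ (ε / 2)) * (3 * 2 ^ (ε / 2) * X ^ (ε / 2)) :=
        mul_le_mul_of_nonneg_right hc3 (by positivity)
    _ = (1 / ((ε / 2) * Real.log 2) + 1) * (3 * 2 ^ (ε / 2)) * (X ^ (ε / 2) * X ^ (ε / 2)) := by ring
    _ = _ := by
        rw [← Real.rpow_add hX0]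
        congr 2
        ring

end Pool.Agent.Results.MP_f5a5f7_nt.RationalsFewExponents
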